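import Pool.Agent.H23.GZ.Targets5

/-!
Row GA1 of the board gz: Gaussian integral over one column.
-/

set_option autoImplicit false

namespace Pool.Agent.H54.GZ

open Pool.Agent.H34.GM Pool.Agent.H34.GZ MeasureTheory Set

/-- the radial profile -/
noncomputable def rad (n : ℕ) (κ : ℂ) (y : ℝ) : ℂ :=
  (y : ℂ) ^ (κ - n) * ((Real.exp (-Real.pi * y ^ 2) : ℝ) : ℂ)

theorem pow_rad {n : ℕ} (hn : 1 ≤ n) (κ : ℂ) {y : ℝ} (hy : 0 < y) :
    y ^ (n - 1) • rad n κ y = (y : ℂ) ^ (κ - 1) * ((Real.exp (-Real.pi * y ^ 2) : ℝ) : ℂ) := by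
  have hy' : (y : ℂ) ≠ 0 := by exact_mod_cast hy.ne'
  obtain ⟨k, rfl⟩ : ∃ k, n = k + 1 := ⟨n - 1, by omega⟩
  unfold rad
  rw [Complex.real_smul, ← mul_assoc]
  congr 1
  have h1 : (κ - 1 : ℂ) = (k : ℂ) + (κ - ((k + 1 : ℕ) : ℂ)) := by
    push_cast
    ring
  rw [h1, Complex.cpow_add _ _ hy', Complex.cpow_natCast]
  push_cast
  rfl

theorem cont_prof (κ : ℂ) : ContinuousOn
    (fun y : ℝ => (y : ℂ) ^ (κ - 1) * ((Real.exp (-Real.pi * y ^ 2) : ℝ) : ℂ)) (Ioi 0) := by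
  refine ContinuousOn.mul ?_ (by fun_prop)
  intro y hy
  have hy' : 0 < y := hy
  exact (Complex.continuousAt_ofReal_cpow_const y (κ - 1) (Or.inr hy'.ne')).continuousWithinAt

theorem int_prof {κ : ℂ} (hκ : 0 < κ.re) : IntegrableOn
    (fun y : ℝ => (y : ℂ) ^ (κ - 1) * ((Real.exp (-Real.pi * y ^ 2) : ℝ) : ℂ)) (Ioi 0) := by
  have h1 : IntegrableOn (fun y : ℝ => y ^ (κ.re - 1) * Real.exp (-Real.pi * y ^ 2)) (Ioi 0) :=
    integrableOn_rpow_mul_exp_neg_mul_sq Real.pi_pos (by linarith)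
  refine Integrable.mono' h1 ((cont_prof κ).aestronglyMeasurable measurableSet_Ioi) ?_
  refine (ae_restrict_iff' measurableSet_Ioi).2 (Filter.Eventually.of_forall fun y hy => ?_)
  have hy' : (0 : ℝ) < y := hy
  rw [norm_mul, Complex.norm_cpow_eq_rpow_re_of_pos hy', Complex.norm_real, Real.norm_eq_abs,
    abs_of_pos (Real.exp_pos _)]
  simp

theorem eval_prof {κ : ℂ} (hκ : 0 < κ.re) :
    ∫ y in Ioi (0 : ℝ), (y : ℂ) ^ (κ - 1) * ((Real.exp (-Real.pi * y ^ 2) : ℝ) : ℂ) =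
      (1 / 2) * ((Real.pi : ℂ) ^ (-κ / 2) * Complex.Gamma (κ / 2)) := by
  have h0 : 0 < (κ / 2).re := by
    have : (κ / 2).re = κ.re / 2 := by
      have : κ / 2 = κ / ((2 : ℝ) : ℂ) := by norm_num
      rw [this, Complex.div_ofReal_re]
    rw [this]
    linarith
  have h1 := Complex.integral_cpow_mul_exp_neg_mul_Ioi h0 Real.pi_pos
  have h2 := integral_comp_rpow_Ioi
    (fun t : ℝ => (t : ℂ) ^ (κ / 2 - 1) * Complex.exp (-((Real.pi : ℂ) * t))) (p := 2) two_ne_zero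
  rw [h1] at h2
  have h3 : ∀ y ∈ Ioi (0 : ℝ), (|(2 : ℝ)| * y ^ ((2 : ℝ) - 1)) •
      ((((y ^ (2 : ℝ) : ℝ) : ℂ)) ^ (κ / 2 - 1) * Complex.exp (-((Real.pi : ℂ) * ((y ^ (2 : ℝ) : ℝ) : ℂ))))
      = 2 * ((y : ℂ) ^ (κ - 1) * ((Real.exp (-Real.pi * y ^ 2) : ℝ) : ℂ)) := by
    intro y hy
    have hy' : (0 : ℝ) < y := hy
    have hyc : (y : ℂ) ≠ 0 := by exact_mod_cast hy'.ne'
    have e1 : (y : ℝ) ^ ((2 : ℝ) - 1) = y := by
      have : (2 : ℝ) - 1 = 1 := by norm_num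
      rw [this, Real.rpow_one]
    have e2 : (y : ℝ) ^ (2 : ℝ) = y ^ 2 := Real.rpow_two y
    have hy2 : (0 : ℝ) < y ^ 2 := by positivity
    have hy2c : ((y ^ 2 : ℝ) : ℂ) ≠ 0 := by exact_mod_cast hy2.ne'
    have e3 : ((y ^ 2 : ℝ) : ℂ) ^ (κ / 2 - 1) = (y : ℂ) ^ (κ - 2) := by
      rw [Complex.cpow_def_of_ne_zero hy2c, Complex.cpow_def_of_ne_zero hyc,
        ← Complex.ofReal_log hy2.le, ← Complex.ofReal_log hy'.le, Real.log_pow]
      congr 1
      push_cast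
      ring
    rw [e1, e2, e3, Complex.real_smul, abs_of_pos (by norm_num : (0 : ℝ) < 2)]
    have e4 : (κ - 1 : ℂ) = 1 + (κ - 2) := by ring
    rw [e4, Complex.cpow_add _ _ hyc, Complex.cpow_one, Complex.ofReal_exp]
    have e5 : -((Real.pi : ℂ) * ((y ^ 2 : ℝ) : ℂ)) = ((-Real.pi * y ^ 2 : ℝ) : ℂ) := by
      push_cast
      ring
    rw [e5]
    push_cast
    ring
  rw [setIntegral_congr_fun measurableSet_Ioi h3, integral_const_mul] at h2
  have h4 : (1 / (Real.pi : ℂ)) ^ (κ / 2) = (Real.pi : ℂ) ^ (-κ / 2) := by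
    have hp : (Real.pi : ℂ) ≠ 0 := by exact_mod_cast Real.pi_pos.ne'
    have hp' : (1 / (Real.pi : ℂ)) ≠ 0 := one_div_ne_zero hp
    have e : (1 / (Real.pi : ℂ)) = ((Real.pi⁻¹ : ℝ) : ℂ) := by
      push_cast
      ring
    rw [Complex.cpow_def_of_ne_zero hp', Complex.cpow_def_of_ne_zero hp, e,
      ← Complex.ofReal_log (inv_pos.2 Real.pi_pos).le, ← Complex.ofReal_log Real.pi_pos.le,
      Real.log_inv]
    congr 1
    push_cast
    ring
  rw [h4] at h2
  rw [← h2]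
  ring

section

variable {E : Type} [NormedAddCommGroup E] [InnerProductSpace ℝ E] [FiniteDimensional ℝ E]
  [MeasurableSpace E] [BorelSpace E]

theorem gauss_int : Integrable (fun v : E => ((Real.exp (-Real.pi * ‖v‖ ^ 2) : ℝ) : ℂ)) := by
  have h := GaussianFourier.integrable_cexp_neg_mul_sq_norm_add (V := E) (b := (Real.pi : ℂ))
    (by simpa using Real.pi_pos) 0 0
  refine h.congr (Filter.Eventually.of_forall fun v => ?_)
  simp [Complex.ofReal_exp]

theorem gauss_one : ∫ v : E, ((Real.exp (-Real.pi * ‖v‖ ^ 2) : ℝ) : ℂ) = 1 := by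
  have h := GaussianFourier.integral_rexp_neg_mul_sq_norm (V := E) Real.pi_pos
  have h' : ∫ v : E, ((Real.exp (-Real.pi * ‖v‖ ^ 2) : ℝ) : ℂ) =
      ((∫ v : E, Real.exp (-Real.pi * ‖v‖ ^ 2) : ℝ) : ℂ) := integral_ofReal
  rw [h', h, div_self Real.pi_pos.ne', Real.one_rpow, Complex.ofReal_one]

theorem rad_int {n : ℕ} (hn : 1 ≤ n) (hE : Module.finrank ℝ E = n) {κ : ℂ} (hκ : 0 < κ.re) :
    Integrable (fun v : E => rad n κ ‖v‖) := by
  have : Nontrivial E := Module.nontrivial_of_finrank_pos (R := ℝ) (by omega)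
  refine (integrable_fun_norm_addHaar (volume : Measure E) (f := rad n κ)).2 ?_
  rw [hE]
  exact (integrableOn_congr_fun (fun y hy => pow_rad hn κ hy) measurableSet_Ioi).2 (int_prof hκ)

theorem rad_eval {n : ℕ} (hn : 1 ≤ n) (hE : Module.finrank ℝ E = n) {κ : ℂ} (hκ : 0 < κ.re) :
    ∫ v : E, rad n κ ‖v‖ = (((n : ℝ) * (√Real.pi ^ n / Real.Gamma (n / 2 + 1)) / 2 : ℝ) : ℂ) *
      ((Real.pi : ℂ) ^ (-κ / 2) * Complex.Gamma (κ / 2)) := by
  have : Nontrivial E := Module.nontrivial_of_finrank_pos (R := ℝ) (by omega)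
  rw [integral_fun_norm_addHaar (volume : Measure E) (rad n κ), hE,
    setIntegral_congr_fun measurableSet_Ioi (fun y hy => pow_rad hn κ hy), eval_prof hκ]
  have hv : (volume : Measure E).real (Metric.ball 0 1) =
      √Real.pi ^ n / Real.Gamma (n / 2 + 1) := by
    rw [Measure.real, InnerProductSpace.volume_ball, hE]
    rw [ENNReal.ofReal_one, one_pow, one_mul, ENNReal.toReal_ofReal]
    have : 0 < Real.Gamma (n / 2 + 1) := Real.Gamma_pos_of_pos (by positivity)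
    positivity
  rw [hv, nsmul_eq_mul, Complex.real_smul]
  push_cast
  ring

end

theorem pf_GA1 : T_GA1 := by
  intro m d hd
  obtain ⟨n, hn, hmn⟩ : ∃ n : ℕ, 1 ≤ n ∧ m = d + n := ⟨m - d, by omega, by omega⟩
  refine ⟨(((n : ℝ) * (√Real.pi ^ n / Real.Gamma (n / 2 + 1)) / 2 : ℝ) : ℂ), ?_, ?_⟩
  · have h1 : 0 < Real.Gamma (n / 2 + 1) := Real.Gamma_pos_of_pos (by positivity)
    have h2 : (0 : ℝ) < n := by exact_mod_cast hn
    have h3 : (0 : ℝ) < (n : ℝ) * (√Real.pi ^ n / Real.Gamma (n / 2 + 1)) / 2 := by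
      have := Real.sqrt_pos.2 Real.pi_pos
      positivity
    exact_mod_cast h3.ne'
  · intro W hW κ hκ
    have hWo : Module.finrank ℝ Wᗮ = n := by
      have := Submodule.finrank_add_finrank_orthogonal W
      rw [finrank_euclideanSpace_fin, hW] at this
      omega
    have hc : (κ - ((m : ℂ) - d)) = κ - n := by
      rw [hmn]
      push_cast
      ring
    let T : EuclideanSpace ℝ (Fin m) ≃ᵐ W × Wᗮ :=
      W.orthogonalDecomposition.toHomeomorph.toMeasurableEquiv.trans (MeasurableEquiv.toLp 2 _).symm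
    have hT : MeasurePreserving T volume volume :=
      W.orthogonalDecomposition.measurePreserving.trans (WithLp.volume_preserving_ofLp _ _)
    have hTv : ∀ v, T v = (W.orthogonalProjectionOnto v, Wᗮ.orthogonalProjectionOnto v) := by
      intro v
      show (W.orthogonalDecomposition v).ofLp = _
      rw [Submodule.orthogonalDecomposition_apply]
    have hf : (fun v : EuclideanSpace ℝ (Fin m) => ((‖v - W.starProjection v‖ : ℝ) : ℂ) ^
        (κ - ((m : ℂ) - d)) * ((Real.exp (-Real.pi * ‖v‖ ^ 2) : ℝ) : ℂ)) =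
        (fun p : W × Wᗮ => ((Real.exp (-Real.pi * ‖p.1‖ ^ 2) : ℝ) : ℂ) * rad n κ ‖p.2‖) ∘ T := by
      funext v
      simp only [Function.comp_apply, hTv]
      have e1 : v - W.starProjection v = (Wᗮ.orthogonalProjectionOnto v : EuclideanSpace ℝ (Fin m)) := by
        rw [← Submodule.starProjection_orthogonal_val]
        rfl
      have e2 : ‖v - W.starProjection v‖ = ‖Wᗮ.orthogonalProjectionOnto v‖ := by
        rw [e1]
        rfl
      rw [hc, e2, Submodule.norm_sq_eq_add_norm_sq_projection v W]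
      unfold rad
      have e3 : Real.exp (-Real.pi * (‖W.orthogonalProjectionOnto v‖ ^ 2 +
          ‖Wᗮ.orthogonalProjectionOnto v‖ ^ 2)) =
          Real.exp (-Real.pi * ‖W.orthogonalProjectionOnto v‖ ^ 2) *
          Real.exp (-Real.pi * ‖Wᗮ.orthogonalProjectionOnto v‖ ^ 2) := by
        rw [← Real.exp_add]
        congr 1
        ring
      rw [e3]
      push_cast
      ring
    have hint : Integrable (fun p : W × Wᗮ => ((Real.exp (-Real.pi * ‖p.1‖ ^ 2) : ℝ) : ℂ) *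
        rad n κ ‖p.2‖) (volume.prod volume) :=
      (gauss_int (E := W)).mul_prod (rad_int (E := Wᗮ) hn hWo hκ)
    refine ⟨?_, ?_⟩
    · rw [hf]
      exact (hT.integrable_comp_emb T.measurableEmbedding).2 hint
    · have h5 : ∫ v : EuclideanSpace ℝ (Fin m), ((‖v - W.starProjection v‖ : ℝ) : ℂ) ^
          (κ - ((m : ℂ) - d)) * ((Real.exp (-Real.pi * ‖v‖ ^ 2) : ℝ) : ℂ) =
          ∫ v, ((fun p : W × Wᗮ => ((Real.exp (-Real.pi * ‖p.1‖ ^ 2) : ℝ) : ℂ) *
            rad n κ ‖p.2‖) ∘ T) v := by rw [← hf]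
      rw [h5]
      simp only [Function.comp_apply]
      rw [hT.integral_comp T.measurableEmbedding (fun p : W × Wᗮ =>
        ((Real.exp (-Real.pi * ‖p.1‖ ^ 2) : ℝ) : ℂ) * rad n κ ‖p.2‖)]
      show ∫ p : W × Wᗮ, ((Real.exp (-Real.pi * ‖p.1‖ ^ 2) : ℝ) : ℂ) * rad n κ ‖p.2‖
        ∂(volume.prod volume) = _
      rw [integral_prod_mul (fun u : W => ((Real.exp (-Real.pi * ‖u‖ ^ 2) : ℝ) : ℂ))
        (fun v : Wᗮ => rad n κ ‖v‖), gauss_one, one_mul, rad_eval hn hWo hκ]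

end Pool.Agent.H54.GZ
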